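import Mathlib

/-! No class of test spaces characterises UOK. -/

namespace Pool.Agent.Results.MP_82653f_gt.NoClass

open Set Filter Topology OnePoint

universe v

/-- the diagonal is closed with respect to the class `C` of test spaces -/
def CHaus (C : ∀ Z : Type v, TopologicalSpace Z → Prop) (X : Type) [TopologicalSpace X] : Prop :=
  ∀ (Z : Type v) [t : TopologicalSpace Z], C Z t → ∀ f : Z → X × X, Continuous f →
    IsClosed (f ⁻¹' diagonal X)

/-- extensions to one-point compactifications are unique -/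
def UOK (X : Type) [TopologicalSpace X] : Prop :=
  ∀ (L : Type) [TopologicalSpace L] [LocallyCompactSpace L] [T2Space L] [NoncompactSpace L]
    (f : L → X), Continuous f → ∀ g h : OnePoint L → X, Continuous g → Continuous h →
      (∀ x : L, g x = f x) → (∀ x : L, h x = f x) → g = h

section
variable {Y : Type}

def Gl (O : Set Y) : Type := {z : Y × Bool // z.1 ∈ O → z.2 = false}

open Classical in
noncomputable def ι (O : Set Y) (b : Bool) (y : Y) : Gl O :=
  ⟨(y, if y ∈ O then false else b), fun h => if_pos h⟩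

def q {O : Set Y} (z : Gl O) : Y := z.1.1

theorem ι_eq {O : Set Y} {b c : Bool} {x y : Y} :
    ι O b x = ι O c y ↔ x = y ∧ (x ∈ O ∨ b = c) := by
  constructor
  · intro h
    have h1 := congrArg Subtype.val h
    simp only [ι, Prod.mk.injEq] at h1
    obtain ⟨rfl, h2⟩ := h1
    by_cases h3 : x ∈ O
    · exact ⟨rfl, Or.inl h3⟩
    · exact ⟨rfl, Or.inr (by simpa [h3] using h2)⟩
  · rintro ⟨rfl, h | rfl⟩
    · exact Subtype.ext (by simp [ι, h])
    · rfl

theorem ι_q {O : Set Y} (z : Gl O) : ι O z.1.2 (q z) = z := by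
  refine Subtype.ext (Prod.ext rfl ?_)
  by_cases h : z.1.1 ∈ O
  · exact (if_pos h).trans (z.2 h).symm
  · exact if_neg h

variable [TopologicalSpace Y]

instance (O : Set Y) : TopologicalSpace (Gl O) where
  IsOpen U := ∀ b, IsOpen (ι O b ⁻¹' U)
  isOpen_univ _ := isOpen_univ
  isOpen_inter _ _ h1 h2 b := (h1 b).inter (h2 b)
  isOpen_sUnion s h b := by
    rw [preimage_sUnion]
    exact isOpen_biUnion fun U hU => h U hU b

theorem ι_cont (O : Set Y) (b : Bool) : Continuous (ι O b) := ⟨fun _ h => h b⟩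

theorem q_cont (O : Set Y) : Continuous (q : Gl O → Y) := ⟨fun _ h _ => h⟩

theorem range_open {O : Set Y} (hO : IsOpen O) (b : Bool) : IsOpen (range (ι O b)) := by
  have : ∀ c, IsOpen (ι O c ⁻¹' range (ι O b)) := fun c => by
    by_cases h : b = c
    · rw [h, preimage_range]
      exact isOpen_univ
    · convert hO using 1
      ext y
      simp [ι_eq, h]
  exact this

theorem sep {O : Set Y} (hO : IsOpen O) {a b : Gl O} (h : a ≠ b) (h' : q a = q b) :
    q a ∉ O ∧ ∃ U V, IsOpen U ∧ IsOpen V ∧ a ∈ U ∧ b ∈ V ∧ ∀ w ∈ U ∩ V, q w ∈ O := by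
  have h1 : ¬ (q a ∈ O ∨ a.1.2 = b.1.2) := fun h1 =>
    h ((ι_q a).symm.trans ((ι_eq.2 ⟨h', h1⟩).trans (ι_q b)))
  refine ⟨fun h2 => h1 (Or.inl h2), _, _, range_open hO a.1.2, range_open hO b.1.2, ⟨_, ι_q a⟩,
    ⟨_, ι_q b⟩, ?_⟩
  rintro _ ⟨⟨x, rfl⟩, y, hy⟩
  obtain ⟨rfl, h3⟩ := ι_eq.1 hy
  exact h3.resolve_right fun h4 => h1 (Or.inr h4.symm)

theorem uok [T2Space Y] {O : Set Y} (hO : IsOpen O)
    (H : ∀ (K : Type) [TopologicalSpace K] [CompactSpace K] [T2Space K] (k : K) [(𝓝[≠] k).NeBot]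
      (F : K → Y), Continuous F → F k ∉ O → ¬ ∀ᶠ x in 𝓝[≠] k, F x ∈ O) : UOK (Gl O) := by
  intro L _ _ _ _ f _ g h hg hh h1 h2
  have h3 : q ∘ g = q ∘ h := ((q_cont O).comp hg).ext_on denseRange_coe ((q_cont O).comp hh) (by
    rintro _ ⟨x, rfl⟩
    simp [h1, h2])
  have h4 : ∀ x, x ≠ ∞ → g x = h x := fun x hx => by
    lift x to L using hx
    rw [h1, h2]
  funext x
  by_contra hn
  obtain rfl : x = ∞ := by
    by_contra hx
    exact hn (h4 x hx)
  obtain ⟨a1, U, V, a2, a3, a4, a5, a6⟩ := sep hO hn (congrFun h3 _)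
  refine H (OnePoint L) ∞ _ ((q_cont O).comp hg) a1 ?_
  filter_upwards [self_mem_nhdsWithin, mem_nhdsWithin_of_mem_nhds ((a2.preimage hg).mem_nhds a4),
    mem_nhdsWithin_of_mem_nhds ((a3.preimage hh).mem_nhds a5)] with x b1 b2 b3
  exact a6 _ ⟨b2, h4 x b1 ▸ b3⟩

theorem closed_of {C : ∀ Z : Type v, TopologicalSpace Z → Prop} {O : Set Y} (h : CHaus C (Gl O))
    {Z : Type v} [t : TopologicalSpace Z] (hZ : C Z t) {φ : Z → Y} (hφ : Continuous φ) :
    IsClosed (φ ⁻¹' O) := by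
  convert h Z hZ _ (((ι_cont O false).comp hφ).prodMk ((ι_cont O true).comp hφ)) using 1
  ext z
  simp [ι_eq]

end

abbrev K : Type := Ultrafilter ℕ

theorem no_seq {y : ℕ → K} {p : K} (h : Tendsto y atTop (𝓝 p)) : ∃ n, y n = p := by
  classical
  by_contra hn
  push Not at hn
  have hev : ∀ A ∈ p, ∀ᶠ n in atTop, A ∈ y n := fun A hA =>
    h.eventually ((ultrafilter_isOpen_basic A).mem_nhds hA)
  have h1 : ∀ n, ∃ A, A ∈ y n ∧ A ∉ p := fun n => by
    by_contra hc
    push Not at hc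
    exact hn n (Ultrafilter.eq_of_le (f := p) (g := y n) hc).symm
  choose A h1 h2 using h1
  let r : ℕ → ℕ := fun m => sInf {n | m ∈ A n}
  have h3 : ∀ n, ∃ k, {m | m ∈ A k ∧ r m = k} ∈ y n := fun n => by
    obtain ⟨k, -, hk⟩ := (Ultrafilter.finite_biUnion_mem_iff (f := y n)
      (s := fun k => {m | m ∈ A k ∧ r m = k}) (finite_Iic n)).1
      (mem_of_superset (h1 n) fun m hm => mem_iUnion₂.2
        ⟨r m, Nat.sInf_le hm, Nat.sInf_mem (⟨n, hm⟩ : {n | m ∈ A n}.Nonempty), rfl⟩)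
    exact ⟨k, hk⟩
  choose ρ hρ using h3
  have h4 : (range ρ).Infinite := fun hf => by
    obtain ⟨n, hn⟩ := ((eventually_all_finite hf).2 fun k _ =>
      hev _ (Ultrafilter.compl_mem_iff_notMem.2 (h2 k))).exists
    exact Ultrafilter.compl_mem_iff_notMem.1 (hn _ ⟨n, rfl⟩)
      (mem_of_superset (hρ n) fun m hm => hm.1)
  have h5 : ∀ S : Set ℕ, r ⁻¹' S ∈ p → (range ρ \ S).Finite := fun S hS => by
    obtain ⟨N, hN⟩ := eventually_atTop.1 (hev _ hS)
    refine ((finite_Iio N).image ρ).subset ?_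
    rintro _ ⟨⟨n, rfl⟩, h6⟩
    refine ⟨n, mem_Iio.2 (not_le.1 fun h7 => h6 ?_), rfl⟩
    obtain ⟨m, h8, h9⟩ := (y n).nonempty_of_mem (inter_mem (hN n h7) (hρ n))
    exact h9.2 ▸ h8
  let e := h4.natEmbedding
  have he : Function.Injective fun k => (e k).1 := Subtype.val_injective.comp e.injective
  rcases p.mem_or_compl_mem (r ⁻¹' range fun k => (e (2 * k)).1) with h6 | h6
  · refine infinite_of_injective_forall_mem (f := fun k => (e (2 * k + 1)).1)
      (fun a b hab => by simpa using he hab) (fun k => (mem_sdiff _).2 ⟨(e _).2, ?_⟩) (h5 _ h6)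
    rintro ⟨j, hj⟩
    have := he hj
    omega
  · refine infinite_of_injective_forall_mem (f := fun k => (e (2 * k)).1)
      (fun a b hab => by simpa using he hab) (fun k => (mem_sdiff _).2 ⟨(e _).2, ?_⟩)
      (h5 (range fun k => (e (2 * k)).1)ᶜ h6)
    exact fun h => h ⟨k, rfl⟩

theorem uok1 (A : ℕ → Set ℕ) : UOK (Gl (⋃ n, {u : K | A n ∈ u})) := by
  refine uok (isOpen_iUnion fun n => ultrafilter_isOpen_basic _) fun T _ _ _ k _ F hF h1 h2 => ?_
  obtain ⟨N0, hN0, h3⟩ := mem_nhdsWithin_iff_exists_mem_nhds_inter.1 h2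
  obtain ⟨N, hN, hNc, h4⟩ := exists_mem_nhds_isClosed_subset hN0
  have h5 : ∀ n, ∃ x, x ≠ k ∧ x ∈ N ∧ ∀ j ≤ n, A j ∉ F x := fun n => by
    have : ∀ᶠ x in 𝓝 k, ∀ j ∈ Iic n, A j ∉ F x := (eventually_all_finite (finite_Iic n)).2
      fun j _ => ((ultrafilter_isClosed_basic (A j)).isOpen_compl.preimage hF).mem_nhds
        fun h => h1 (mem_iUnion.2 ⟨j, h⟩)
    exact ((eventually_mem_nhdsWithin (s := {k}ᶜ)).and
      (mem_nhdsWithin_of_mem_nhds (inter_mem hN this))).exists
  choose x a1 a2 a3 using h5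
  have h6 : Tendsto x atTop (𝓝 k) := hNc.isCompact.tendsto_nhds_of_unique_mapClusterPt
    (Eventually.of_forall a2) fun w hw hc => by
      by_contra hn
      obtain ⟨j, hj⟩ := mem_iUnion.1 (h3 ⟨h4 hw, hn⟩)
      obtain ⟨n, b1, b2⟩ := ((mapClusterPt_iff_frequently.1 hc _
        (((ultrafilter_isOpen_basic (A j)).preimage hF).mem_nhds hj)).and_eventually
          (eventually_ge_atTop j)).exists
      exact a3 n j b2 b1
  obtain ⟨n, hn⟩ := no_seq ((hF.tendsto k).comp h6)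
  exact h1 (hn ▸ h3 ⟨h4 (a2 n), a1 n⟩)

def Kd : Type := K

instance : TopologicalSpace Kd :=
  .generateFrom {T | ∃ A : ℕ → Set ℕ, T = (⋃ n, {u : K | A n ∈ u})ᶜ}

theorem ctbl_closed {S : Set Kd} (hS : S.Countable) : IsClosed S := by
  refine ⟨isOpen_iff_forall_mem_open.2 fun w hw => ?_⟩
  rcases S.eq_empty_or_nonempty with rfl | hne
  · exact ⟨univ, by simp, isOpen_univ, trivial⟩
  obtain ⟨c, rfl⟩ := hS.exists_eq_range hne
  have h1 : ∀ n, ∃ A, A ∈ (show K from c n) ∧ A ∉ (show K from w) := fun n => by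
    by_contra hc
    push Not at hc
    exact hw ⟨n, (Ultrafilter.eq_of_le (f := (show K from w)) (g := (show K from c n)) hc).symm⟩
  choose A h1 h2 using h1
  refine ⟨_, ?_, TopologicalSpace.isOpen_generateFrom_of_mem ⟨A, rfl⟩, fun h => ?_⟩
  · rintro _ h ⟨n, rfl⟩
    exact h (mem_iUnion.2 ⟨n, h1 n⟩)
  · obtain ⟨n, hn⟩ := mem_iUnion.1 h
    exact h2 n hn

instance : T2Space Kd := by
  refine T2Space.of_injective_continuous (f := fun x : Kd => (show K from x))
    Function.injective_id (ultrafilterBasis_is_basis.continuous_iff.2 ?_)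
  rintro _ ⟨A, rfl⟩
  refine TopologicalSpace.isOpen_generateFrom_of_mem ⟨fun _ => Aᶜ, ?_⟩
  ext u
  constructor
  · intro h h'
    obtain ⟨_, hn⟩ := mem_iUnion.1 h'
    exact Ultrafilter.compl_mem_iff_notMem.1 hn h
  · intro h
    by_contra h'
    exact h (mem_iUnion.2 ⟨0, Ultrafilter.compl_mem_iff_notMem.2 h'⟩)

theorem uok2 (p : Kd) : UOK (Gl ({p}ᶜ : Set Kd)) := by
  refine uok isOpen_compl_singleton fun T _ _ _ k _ F hF h1 h2 => ?_
  have h3 : (range F).Finite := by
    by_contra hi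
    let e := Set.Infinite.natEmbedding _ hi
    have he : Function.Injective fun k => (e k).1 := Subtype.val_injective.comp e.injective
    obtain ⟨w, hw⟩ := IsCompact.nonempty_iInter_of_sequence_nonempty_isCompact_isClosed
      (fun n => (fun k => (e k).1) '' Ici n) (fun n => image_mono (Ici_subset_Ici.2 n.le_succ))
      (fun n => ⟨_, n, le_refl n, rfl⟩)
      ((isCompact_range hF).of_isClosed_subset (ctbl_closed ((to_countable _).image _)) (by
        rintro _ ⟨j, -, rfl⟩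
        exact (e j).2)) fun n => ctbl_closed ((to_countable _).image _)
    obtain ⟨j, -, rfl⟩ := mem_iInter.1 hw 0
    obtain ⟨i, h4, h5⟩ := mem_iInter.1 hw (j + 1)
    exact absurd (he h5 ▸ h4) (by simp)
  have h4 := ((h3.subset (sdiff_subset (t := {p}))).isClosed.isOpen_compl.preimage hF).mem_nhds
    (x := k) fun h => h1 h.2
  obtain ⟨x, h5, h6⟩ := (h2.and (mem_nhdsWithin_of_mem_nhds h4)).exists
  exact h6 ⟨⟨x, rfl⟩, h5⟩

theorem not_uok : ¬ UOK (Gl ({hyperfilter ℕ}ᶜ : Set K)) := fun h => by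
  have : LocallyCompactSpace ({hyperfilter ℕ}ᶜ : Set K) :=
    isOpen_compl_singleton.locallyCompactSpace
  have : NoncompactSpace ({hyperfilter ℕ}ᶜ : Set K) := not_compactSpace_iff.1 fun hc => by
    have h1 := (isCompact_iff_compactSpace.2 hc).isClosed.isOpen_compl
    rw [compl_compl] at h1
    obtain ⟨n, hn⟩ := denseRange_pure.exists_mem_open h1 (singleton_nonempty _)
    exact (finite_singleton n).notMem_hyperfilter (mem_singleton_iff.1 hn ▸ Ultrafilter.mem_pure.2 rfl)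
  let e : OnePoint ({hyperfilter ℕ}ᶜ : Set K) → K := fun x => x.elim (hyperfilter ℕ) Subtype.val
  have he : Continuous e := (OnePoint.continuous_iff e).2 ⟨fun U hU => by
    obtain ⟨V, h1, h2, h3⟩ := mem_nhds_iff.1 hU
    refine mem_map.2 (hasBasis_coclosedCompact.mem_iff.2 ⟨Subtype.val ⁻¹' Vᶜ,
      ⟨h2.isClosed_compl.preimage continuous_subtype_val, ?_⟩, fun x hx => h1 (not_not.1 hx)⟩)
    rw [Subtype.isCompact_iff, image_preimage_eq_of_subset]
    · exact h2.isClosed_compl.isCompact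
    · rw [Subtype.range_coe]
      exact compl_subset_compl.2 (singleton_subset_iff.2 h3), continuous_subtype_val⟩
  have h1 := congrFun (h _ _ ((ι_cont _ false).comp continuous_subtype_val) _ _
    ((ι_cont _ false).comp he) ((ι_cont _ true).comp he) (fun _ => rfl)
    fun x => ι_eq.2 ⟨rfl, Or.inl x.2⟩) ∞
  simpa [e] using ι_eq.1 h1

theorem result : ¬ ∃ C : ∀ Z : Type v, TopologicalSpace Z → Prop,
    ∀ (X : Type) [TopologicalSpace X], CHaus C X ↔ UOK X := by
  rintro ⟨C, hC⟩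
  refine not_uok ((hC _).1 fun Z t hZ f hf => ?_)
  have h1 : Continuous fun z => q (f z).1 := (q_cont _).comp hf.fst
  have h2 : Continuous (Y := Kd) fun z => q (f z).1 := continuous_generateFrom_iff.2 (by
    rintro _ ⟨A, rfl⟩
    exact (closed_of ((hC _).2 (uok1 A)) hZ h1).isOpen_compl)
  have h3 := closed_of ((hC _).2 (uok2 (hyperfilter ℕ))) hZ h2
  refine closure_subset_iff_isClosed.1 fun z hz => ?_
  by_contra hn
  have h4 : q (f z).1 = q (f z).2 := closure_minimal (fun w (hw : (f w).1 = (f w).2) => congrArg q hw)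
    (isClosed_eq h1 ((q_cont _).comp hf.snd)) hz
  obtain ⟨a1, U, V, a2, a3, a4, a5, a6⟩ := sep isOpen_compl_singleton hn h4
  obtain ⟨w, ⟨b1, b2, b3⟩, b4⟩ := mem_closure_iff.1 hz _ (h3.isOpen_compl.inter
    ((a2.preimage hf.fst).inter (a3.preimage hf.snd))) ⟨a1, a4, a5⟩
  exact b1 (a6 _ ⟨b2, (show (f w).1 = (f w).2 from b4) ▸ b3⟩)

end Pool.Agent.Results.MP_82653f_gt.NoClass
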